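import Pool.Agent.H64.LB.Targets

open Topology Set
open Pool.Agent.H59
open Pool.Agent.H64.LB
open scoped unitInterval ContinuousMap

namespace Pool.Agent.H54.LB

theorem hqf : T_HQF := by
  constructor
  · intro k Y _ z
    induction z using Submodule.Quotient.induction_on with
    | _ x =>
    refine congrArg (Submodule.Quotient.mk) (Subtype.ext ?_)
    rfl
  · intro k Y Y' Y'' _ _ _ f g z
    induction z using Submodule.Quotient.induction_on with
    | _ x =>
    rfl

end Pool.Agent.H54.LB
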