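import Pool.Agent.H64.LB.Targets

open Topology Set
open Pool.Agent.H59
open Pool.Agent.H64.LB
open scoped unitInterval ContinuousMap

namespace Pool.Agent.H54.LB

theorem qs_eqs (z : QS) : (∑ i, (z.1 i).re ^ 2) - ∑ i, (z.1 i).im ^ 2 = 1 ∧
    ∑ i, (z.1 i).re * (z.1 i).im = 0 := by
  have h := z.2
  have h1 := congrArg Complex.re h
  have h2 := congrArg Complex.im h
  simp only [Complex.re_sum, Complex.im_sum, sq, Complex.mul_re, Complex.mul_im, Complex.one_re,
    Complex.one_im] at h1 h2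
  constructor
  · rw [← Finset.sum_sub_distrib]
    simp only [sq]
    exact h1
  · have h3 : ∑ i, ((z.1 i).re * (z.1 i).im + (z.1 i).im * (z.1 i).re) =
        2 * ∑ i, (z.1 i).re * (z.1 i).im := by
      rw [Finset.mul_sum]
      exact Finset.sum_congr rfl fun i _ => by ring
    rw [h3] at h2
    linarith

theorem qs_pos (z : QS) : 0 < ∑ i, (z.1 i).re ^ 2 := by
  have h := (qs_eqs z).1
  have h2 : 0 ≤ ∑ i, (z.1 i).im ^ 2 := Finset.sum_nonneg fun i _ => sq_nonneg _
  linarith

theorem cont_re (i : Fin 3) : Continuous (fun z : QS => (z.1 i).re) :=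
  Complex.continuous_re.comp ((continuous_apply i).comp continuous_subtype_val)

theorem cont_im (i : Fin 3) : Continuous (fun z : QS => (z.1 i).im) :=
  Complex.continuous_im.comp ((continuous_apply i).comp continuous_subtype_val)

theorem cont_nre : Continuous (fun z : QS => Real.sqrt (∑ i, (z.1 i).re ^ 2)) :=
  (continuous_finset_sum _ fun i _ => (cont_re i).pow 2).sqrt

theorem cont_nim : Continuous (fun z : QS => ∑ i, (z.1 i).im ^ 2) :=
  continuous_finset_sum _ fun i _ => (cont_im i).pow 2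

/-- the retraction `z ↦ Re z / |Re z|` -/
noncomputable def qr : C(QS, S2) where
  toFun z := ⟨fun i => (z.1 i).re / Real.sqrt (∑ i, (z.1 i).re ^ 2), by
    have h := qs_pos z
    simp_rw [div_pow]
    rw [← Finset.sum_div, Real.sq_sqrt h.le]
    exact div_self h.ne'⟩
  continuous_toFun := by
    refine Continuous.subtype_mk ?_ _
    refine continuous_pi (fun i => ?_)
    exact Continuous.div₀ (cont_re i) cont_nre (fun x => (Real.sqrt_pos.2 (qs_pos x)).ne')

/-- the homotopy, `s = 1` is the identity -/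
noncomputable def hz (s : ℝ) (z : QS) (i : Fin 3) : ℂ :=
  ((Real.sqrt (1 + s ^ 2 * ∑ i, (z.1 i).im ^ 2) / Real.sqrt (∑ i, (z.1 i).re ^ 2) * (z.1 i).re : ℝ) : ℂ)
    + ((s * (z.1 i).im : ℝ) : ℂ) * Complex.I

theorem hz_sq (s : ℝ) (z : QS) : ∑ i, hz s z i ^ 2 = 1 := by
  set X : ℝ := ∑ i, (z.1 i).re ^ 2 with hX
  set Y : ℝ := ∑ i, (z.1 i).im ^ 2 with hY
  have hX0 : 0 < X := qs_pos z
  have hY0 : 0 ≤ Y := Finset.sum_nonneg fun i _ => sq_nonneg _
  have hXY : ∑ i, (z.1 i).re * (z.1 i).im = 0 := (qs_eqs z).2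
  set c : ℝ := Real.sqrt (1 + s ^ 2 * Y) / Real.sqrt X with hc
  have hc2 : c ^ 2 * X = 1 + s ^ 2 * Y := by
    rw [hc, div_pow, Real.sq_sqrt (by positivity), Real.sq_sqrt hX0.le]
    field_simp
  have h1 : ∀ i, hz s z i ^ 2 = ((c ^ 2 * (z.1 i).re ^ 2 - s ^ 2 * (z.1 i).im ^ 2 : ℝ) : ℂ) +
      ((2 * c * s * ((z.1 i).re * (z.1 i).im) : ℝ) : ℂ) * Complex.I := by
    intro i
    unfold hz
    rw [← hX, ← hY, ← hc]
    push_cast
    ring_nf
    rw [Complex.I_sq]
    ring
  simp_rw [h1]
  rw [Finset.sum_add_distrib, ← Finset.sum_mul, ← Complex.ofReal_sum, ← Complex.ofReal_sum,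
    Finset.sum_sub_distrib, ← Finset.mul_sum, ← Finset.mul_sum, ← Finset.mul_sum, hXY, ← hX, ← hY,
    hc2]
  simp

theorem qse : T_QSE := by
  refine ⟨⟨S2.toQS, qr, ?_, ?_⟩, rfl⟩
  · have : qr.comp S2.toQS = ContinuousMap.id S2 := by
      ext x i
      show ((x.1 i : ℂ)).re / Real.sqrt (∑ i, ((x.1 i : ℂ)).re ^ 2) = x.1 i
      simp only [Complex.ofReal_re]
      rw [x.2, Real.sqrt_one, div_one]
    rw [this]
  · refine ⟨⟨⟨fun p => ⟨hz p.1 p.2, hz_sq _ _⟩, ?_⟩, ?_, ?_⟩⟩
    · refine Continuous.subtype_mk ?_ _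
      refine continuous_pi (fun i => ?_)
      unfold hz
      refine Continuous.add ?_ ?_
      · refine Complex.continuous_ofReal.comp ?_
        refine Continuous.mul ?_ ((cont_re i).comp continuous_snd)
        refine Continuous.div₀ ?_ (cont_nre.comp continuous_snd)
          (fun p => (Real.sqrt_pos.2 (qs_pos p.2)).ne')
        refine Continuous.sqrt ?_
        refine Continuous.add continuous_const ?_
        exact Continuous.mul (by fun_prop) (cont_nim.comp continuous_snd)
      · refine Continuous.mul (Complex.continuous_ofReal.comp ?_) continuous_const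
        exact Continuous.mul (by fun_prop) ((cont_im i).comp continuous_snd)
    · intro z
      apply Subtype.ext
      funext i
      show hz (0 : ℝ) z i = (((z.1 i).re / Real.sqrt (∑ i, (z.1 i).re ^ 2) : ℝ) : ℂ)
      unfold hz
      simp
      ring
    · intro z
      apply Subtype.ext
      funext i
      show hz (1 : ℝ) z i = z.1 i
      unfold hz
      have h := (qs_eqs z).1
      have h2 : 1 + (1 : ℝ) ^ 2 * ∑ i, (z.1 i).im ^ 2 = ∑ i, (z.1 i).re ^ 2 := by linarith
      rw [h2, div_self (Real.sqrt_pos.2 (qs_pos z)).ne', one_mul, one_mul]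
      exact Complex.re_add_im _

end Pool.Agent.H54.LB
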