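import Pool.Agent.H64.LB.Targets

open Topology Set
open Pool.Agent.H59
open Pool.Agent.H64.LB
open scoped unitInterval ContinuousMap

namespace Pool.Agent.H54.LB

theorem sph_pos (x : Sph 2) : 0 < ∑ i, x.1 i ^ 2 := by
  have h0 : ∃ i, x.1 i ≠ 0 := by
    by_contra h
    push Not at h
    exact x.2 (funext h)
  obtain ⟨i, hi⟩ := h0
  exact Finset.sum_pos' (fun j _ => sq_nonneg _) ⟨i, Finset.mem_univ i, by positivity⟩

theorem cont_coord (i : Fin 3) : Continuous (fun x : Sph 2 => x.1 i) :=
  (continuous_apply i).comp continuous_subtype_val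

theorem cont_norm : Continuous (fun x : Sph 2 => Real.sqrt (∑ i, x.1 i ^ 2)) :=
  (continuous_finset_sum _ fun i _ => (cont_coord i).pow 2).sqrt

/-- radial retraction -/
noncomputable def rr : C(Sph 2, S2) where
  toFun x := ⟨fun i => x.1 i / Real.sqrt (∑ i, x.1 i ^ 2), by
    have h := sph_pos x
    simp_rw [div_pow]
    rw [← Finset.sum_div, Real.sq_sqrt h.le]
    exact div_self h.ne'⟩
  continuous_toFun := by
    refine Continuous.subtype_mk ?_ _
    refine continuous_pi (fun i => ?_)
    exact Continuous.div₀ (cont_coord i) cont_norm (fun x => (Real.sqrt_pos.2 (sph_pos x)).ne')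

theorem s2e : T_S2E := by
  refine ⟨⟨S2.toSph, rr, ?_, ?_⟩, rfl⟩
  · have : rr.comp S2.toSph = ContinuousMap.id S2 := by
      ext x i
      show x.1 i / Real.sqrt (∑ i, x.1 i ^ 2) = x.1 i
      rw [x.2, Real.sqrt_one, div_one]
    rw [this]
  · refine ⟨⟨⟨fun p => ⟨fun i => ((1 - (p.1 : ℝ)) / Real.sqrt (∑ i, p.2.1 i ^ 2) + p.1) * p.2.1 i, ?_⟩,
      ?_⟩, ?_, ?_⟩⟩
    · intro h
      apply p.2.2
      funext i
      have h1 := congrFun h i
      simp only [Pi.zero_apply, mul_eq_zero] at h1
      rcases h1 with h1 | h1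
      · exfalso
        have hs := Real.sqrt_pos.2 (sph_pos p.2)
        have h2 := p.1.2.1
        have h3 := p.1.2.2
        have h4 : 0 ≤ (1 - (p.1 : ℝ)) / Real.sqrt (∑ i, p.2.1 i ^ 2) := div_nonneg (by linarith) hs.le
        have h5 : (p.1 : ℝ) = 0 := by linarith
        rw [h5, sub_zero, add_zero] at h1
        exact (one_div_pos.2 hs).ne' h1
      · exact h1
    · refine Continuous.subtype_mk ?_ _
      refine continuous_pi (fun i => ?_)
      refine Continuous.mul ?_ ((cont_coord i).comp continuous_snd)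
      refine Continuous.add ?_ (by fun_prop)
      exact Continuous.div₀ (by fun_prop) (cont_norm.comp continuous_snd)
        (fun p => (Real.sqrt_pos.2 (sph_pos p.2)).ne')
    · intro x
      apply Subtype.ext
      funext i
      show ((1 - (0 : ℝ)) / Real.sqrt (∑ i, x.1 i ^ 2) + 0) * x.1 i = x.1 i / Real.sqrt (∑ i, x.1 i ^ 2)
      rw [sub_zero, add_zero, one_div, inv_mul_eq_div]
    · intro x
      apply Subtype.ext
      funext i
      show ((1 - (1 : ℝ)) / Real.sqrt (∑ i, x.1 i ^ 2) + 1) * x.1 i = x.1 i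
      rw [sub_self, zero_div, zero_add, one_mul]

end Pool.Agent.H54.LB
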