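import Pool.Agent.H64.LB.Targets

open Topology Set
open Pool.Agent.H59
open Pool.Agent.H64.LB
open scoped unitInterval ContinuousMap

namespace Pool.Agent.H54.LB

theorem sch : T_SCH := by
  intro X Y _ _ ⟨e⟩ hX
  have h1 : Nonempty (FundamentalGroupoid X ≌ CategoryTheory.Discrete Unit) := hX.equiv_unit
  obtain ⟨e1⟩ := h1
  exact ⟨⟨(FundamentalGroupoidFunctor.equivOfHomotopyEquiv e).symm.trans e1⟩⟩

end Pool.Agent.H54.LB
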