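import Pool.Agent.H64.LB.Targets

open Topology Set
open Pool.Agent.H59
open Pool.Agent.H64.LB
open scoped unitInterval ContinuousMap

namespace Pool.Agent.H54.LB

/-- the points `1` and `-1` of `ℝ ∖ 0` -/
def pm (s : ℝ) (hs : s ≠ 0) : Sph 0 := ⟨fun _ => s, fun h => hs (congrFun h 0)⟩

/-- `t ↦ (±1, t)` -/
def ii (s : ℝ) (hs : s ≠ 0) (T : Type) [TopologicalSpace T] : C(T, Sph 0 × T) :=
  (ContinuousMap.const T (pm s hs)).prodMk (ContinuousMap.id T)

/-- the half line with sign `s` -/
def half (s : ℝ) (T : Type) [TopologicalSpace T] : Set (Sph 0 × T) :=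
  {p | 0 < s * p.1.1 0}

theorem cont_c0 (T : Type) [TopologicalSpace T] :
    Continuous (fun p : Sph 0 × T => p.1.1 0) :=
  (continuous_apply 0).comp (continuous_subtype_val.comp continuous_fst)

theorem isOpen_half (s : ℝ) (T : Type) [TopologicalSpace T] : IsOpen (half s T) :=
  isOpen_lt continuous_const (continuous_const.mul (cont_c0 T))

/-- `t ↦ (s, t)` into the half -/
def jj (s : ℝ) (hs : s ≠ 0) (T : Type) [TopologicalSpace T] : C(T, half s T) where
  toFun t := ⟨(pm s hs, t), by
    show 0 < s * s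
    exact mul_self_pos.2 hs⟩
  continuous_toFun := Continuous.subtype_mk (by fun_prop) _

/-- the projection from the half -/
def pj (s : ℝ) (T : Type) [TopologicalSpace T] : C(half s T, T) where
  toFun p := p.1.2
  continuous_toFun := continuous_snd.comp continuous_subtype_val

theorem fin1 (i : Fin (0 + 1)) : i = 0 := Subsingleton.elim (α := Fin 1) i 0

theorem jj_pj (s : ℝ) (hs : s ≠ 0) (T : Type) [TopologicalSpace T] :
    ((jj s hs T).comp (pj s T)).Homotopic (ContinuousMap.id (half s T)) := by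
  have hconv : ∀ (u : I) (p : half s T), 0 < s * ((1 - (u : ℝ)) * s + u * p.1.1.1 0) := by
    intro u p
    have h1 : 0 < s * s := mul_self_pos.2 hs
    have h2 : 0 < s * p.1.1.1 0 := p.2
    have h3 := u.2.1
    have h4 := u.2.2
    have e : s * ((1 - (u : ℝ)) * s + u * p.1.1.1 0) = (1 - (u : ℝ)) * (s * s) +
      u * (s * p.1.1.1 0) := by ring
    rw [e]
    rcases eq_or_lt_of_le h3 with h | h
    · rw [← h]; simpa using h1
    · have : 0 ≤ (1 - (u : ℝ)) * (s * s) := mul_nonneg (by linarith) h1.le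
      have : 0 < (u : ℝ) * (s * p.1.1.1 0) := mul_pos h h2
      linarith
  refine ⟨⟨⟨fun q => ⟨(⟨fun _ => (1 - (q.1 : ℝ)) * s + q.1 * q.2.1.1.1 0, fun h => ?_⟩, q.2.1.2),
    hconv q.1 q.2⟩, ?_⟩, ?_, ?_⟩⟩
  · have h1 := hconv q.1 q.2
    have h2 : (1 - (q.1 : ℝ)) * s + q.1 * q.2.1.1.1 0 = 0 := congrFun h 0
    rw [h2, mul_zero] at h1
    exact lt_irrefl _ h1
  · refine Continuous.subtype_mk ?_ _
    refine Continuous.prodMk ?_ ?_
    · refine Continuous.subtype_mk ?_ _
      refine continuous_pi (fun i => ?_)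
      refine Continuous.add (by fun_prop) ?_
      exact Continuous.mul (by fun_prop)
        ((cont_c0 T).comp (continuous_subtype_val.comp continuous_snd))
    · exact continuous_snd.comp (continuous_subtype_val.comp continuous_snd)
  · intro p
    apply Subtype.ext
    refine Prod.ext (Subtype.ext ?_) rfl
    funext i
    show (1 - (0 : ℝ)) * s + 0 * p.1.1.1 0 = s
    ring
  · intro p
    apply Subtype.ext
    refine Prod.ext (Subtype.ext ?_) rfl
    funext i
    show (1 - (1 : ℝ)) * s + 1 * p.1.1.1 0 = p.1.1.1 i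
    rw [fin1 i]; ring

section
variable (hHM : T_HM) (R : Type) [CommRing R]
include hHM

theorem jj_bij (s : ℝ) (hs : s ≠ 0) (q : ℕ) (T : Type) [TopologicalSpace T] :
    Function.Bijective (HH.map R q (jj s hs T)) := by
  have h1 : ∀ a, HH.map R q (pj s T) (HH.map R q (jj s hs T) a) = a := by
    intro a
    rw [← HH.map_comp]
    have : (pj s T).comp (jj s hs T) = ContinuousMap.id T := by ext t; rfl
    rw [this, HH.map_id]
  have h2 : ∀ b, HH.map R q (jj s hs T) (HH.map R q (pj s T) b) = b := by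
    intro b
    rw [← HH.map_comp, hHM R _ _ _ _ (jj_pj s hs T) q, HH.map_id]
  exact ⟨Function.LeftInverse.injective h1, Function.RightInverse.surjective h2⟩

theorem phi_bij (hDU : T_DU) (q : ℕ) (T : Type) [TopologicalSpace T] :
    Function.Bijective (fun p : HH R q T × HH R q T =>
      HH.map R q (ii 1 one_ne_zero T) p.1 + HH.map R q (ii (-1) (by norm_num) T) p.2) := by
  have hU : half 1 T ∪ half (-1) T = univ := by
    ext p
    simp only [mem_union, mem_univ, iff_true]
    have hne : p.1.1 0 ≠ 0 := by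
      intro h
      apply p.1.2
      funext i
      rw [fin1 i]; exact h
    rcases lt_or_gt_of_ne hne with h | h
    · right; show 0 < (-1 : ℝ) * p.1.1 0; linarith
    · left; show 0 < (1 : ℝ) * p.1.1 0; linarith
  have hI : half 1 T ∩ half (-1) T = ∅ := by
    ext p
    simp only [mem_inter_iff, mem_empty_iff_false, iff_false]
    rintro ⟨h1, h2⟩
    have h1' : 0 < (1 : ℝ) * p.1.1 0 := h1
    have h2' : 0 < (-1 : ℝ) * p.1.1 0 := h2
    linarith
  have hd := hDU R (Sph 0 × T) (half 1 T) (half (-1) T) (isOpen_half _ _) (isOpen_half _ _) hU hI q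
  have h1 := jj_bij hHM R 1 one_ne_zero q T
  have h2 := jj_bij hHM R (-1) (by norm_num) q T
  have h3 := hd.comp (h1.prodMap h2)
  refine (Function.Bijective.of_comp_iff' (f := id) Function.bijective_id _).1 ?_
  convert h3 using 1
  funext p
  simp only [Function.comp, id, Prod.map]
  rw [← HH.map_comp, ← HH.map_comp]
  rfl

end

theorem su0 (hDU : T_DU) (hHM : T_HM) : T_SU0 := by
  intro R _
  have hm1 : (-1 : ℝ) ≠ 0 := by norm_num
  have hsnd : ∀ (s : ℝ) (hs : s ≠ 0) (q : ℕ) (T : Type) [TopologicalSpace T] (a : HH R q T),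
      HH.map R q (ContinuousMap.snd : C(Sph 0 × T, T)) (HH.map R q (ii s hs T) a) = a := by
    intro s hs q T _ a
    rw [← HH.map_comp]
    have : (ContinuousMap.snd : C(Sph 0 × T, T)).comp (ii s hs T) = ContinuousMap.id T := by
      ext t; rfl
    rw [this, HH.map_id]
  let ψ : ∀ (q : ℕ) (T : Type) [TopologicalSpace T], HH R q T →ₗ[R] KK R 0 q T := fun q T _ =>
    LinearMap.codRestrict _ (HH.map R q (ii 1 one_ne_zero T) - HH.map R q (ii (-1) hm1 T)) (by
      intro a
      show HH.map R q (ContinuousMap.snd : C(Sph 0 × T, T))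
        (HH.map R q (ii 1 one_ne_zero T) a - HH.map R q (ii (-1) hm1 T) a) = 0
      rw [map_sub, hsnd, hsnd, sub_self])
  have hψ : ∀ (q : ℕ) (T : Type) [TopologicalSpace T] (a : HH R q T),
      (ψ q T a).1 = HH.map R q (ii 1 one_ne_zero T) a - HH.map R q (ii (-1) hm1 T) a :=
    fun q T _ a => rfl
  have hbij : ∀ (q : ℕ) (T : Type) [TopologicalSpace T], Function.Bijective (ψ q T) := by
    intro q T _
    have hp := phi_bij hHM R hDU q T
    constructor
    · intro a b hab
      have h1 := congrArg Subtype.val hab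
      rw [hψ, hψ] at h1
      have h2 := hp.1 (a₁ := (a, -a)) (a₂ := (b, -b)) (by
        simp only [map_neg]
        rw [← sub_eq_add_neg, ← sub_eq_add_neg]
        exact h1)
      exact congrArg Prod.fst h2
    · intro z
      obtain ⟨⟨a, b⟩, hab⟩ := hp.2 z.1
      have h1 : HH.map R q (ContinuousMap.snd : C(Sph 0 × T, T)) z.1 = 0 := z.2
      rw [← hab] at h1
      simp only [map_add, hsnd] at h1
      have h2 : b = -a := by
        rw [eq_neg_iff_add_eq_zero, add_comm]; exact h1
      refine ⟨a, Subtype.ext ?_⟩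
      rw [hψ, ← hab, h2]
      simp only [map_neg]
      rw [← sub_eq_add_neg]
  let κ : ∀ (q : ℕ) (T : Type) [TopologicalSpace T], KK R 0 q T ≃ₗ[R] HH R q T := fun q T _ =>
    (LinearEquiv.ofBijective (ψ q T) (hbij q T)).symm
  have hκ : ∀ (q : ℕ) (T : Type) [TopologicalSpace T] (z : KK R 0 q T), ψ q T (κ q T z) = z := by
    intro q T _ z
    exact (LinearEquiv.ofBijective (ψ q T) (hbij q T)).apply_symm_apply z
  refine ⟨κ, ?_, ?_⟩
  · intro q T T' _ _ g z z' h
    apply (hbij q T').1
    rw [hκ]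
    apply Subtype.ext
    rw [h, hψ]
    have h1 : z.1 = HH.map R q (ii 1 one_ne_zero T) (κ q T z) -
        HH.map R q (ii (-1) hm1 T) (κ q T z) := by
      rw [← hψ, hκ]
    rw [h1, map_sub, ← HH.map_comp, ← HH.map_comp, ← HH.map_comp, ← HH.map_comp]
    rfl
  · intro q T _ z hz
    have h1 : z = HH.map R q (ii 1 one_ne_zero T) (κ q T ⟨z, hz⟩) -
        HH.map R q (ii (-1) hm1 T) (κ q T ⟨z, hz⟩) := by
      rw [← hψ, hκ]
    have e1 : ((Sph.refl 0 0).prodMap (ContinuousMap.id T)).comp (ii 1 one_ne_zero T) =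
        ii (-1) hm1 T := by
      apply ContinuousMap.ext
      intro t
      refine Prod.ext (Subtype.ext ?_) rfl
      funext i
      rw [fin1 i]
      show (if (0 : Fin (0 + 1)) = 0 then -(1 : ℝ) else 1) = -1
      simp
    have e2 : ((Sph.refl 0 0).prodMap (ContinuousMap.id T)).comp (ii (-1) hm1 T) =
        ii 1 one_ne_zero T := by
      apply ContinuousMap.ext
      intro t
      refine Prod.ext (Subtype.ext ?_) rfl
      funext i
      rw [fin1 i]
      show (if (0 : Fin (0 + 1)) = 0 then -(-1 : ℝ) else -1) = 1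
      simp
    generalize κ q T ⟨z, hz⟩ = a at h1
    rw [h1, map_sub, ← HH.map_comp, ← HH.map_comp, e1, e2, neg_sub]

end Pool.Agent.H54.LB
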