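import Pool.Agent.H64.LB.Targets

open Topology Set
open Pool.Agent.H59
open Pool.Agent.H64.LB
open scoped unitInterval ContinuousMap

namespace Pool.Agent.H54.LB

/-- the theory in one dimension `k` -/
structure SK (R : Type) [CommRing R] (k : ℕ) where
  κ : ∀ (q : ℕ) (T : Type) [TopologicalSpace T], KK R k (q + k) T ≃ₗ[R] HH R q T
  natural : ∀ (q : ℕ) (T T' : Type) [TopologicalSpace T] [TopologicalSpace T'] (g : C(T, T'))
    (z : KK R k (q + k) T) (z' : KK R k (q + k) T'),
    z'.1 = HH.map R (q + k) ((ContinuousMap.id (Sph k)).prodMap g) z.1 →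
      κ q T' z' = HH.map R q g (κ q T z)
  refl : ∀ (q : ℕ) (T : Type) [TopologicalSpace T] (j : Fin (k + 1)),
    ∀ z ∈ KK R k q T,
      HH.map R q ((Sph.refl k j).prodMap (ContinuousMap.id T)) z = - z
  low : ∀ (q : ℕ) (T : Type) [TopologicalSpace T], q < k → KK R k q T = ⊥

theorem refl_mem {R : Type} [CommRing R] {k q : ℕ} {T : Type} [TopologicalSpace T]
    (f : C(Sph k, Sph k)) {z : HH R q (Sph k × T)} (hz : z ∈ KK R k q T) :
    HH.map R q (f.prodMap (ContinuousMap.id T)) z ∈ KK R k q T := by
  have h : HH.map R q (ContinuousMap.snd : C(Sph k × T, T)) z = 0 := hz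
  show HH.map R q (ContinuousMap.snd : C(Sph k × T, T))
    (HH.map R q (f.prodMap (ContinuousMap.id T)) z) = 0
  rw [← HH.map_comp]
  exact h

theorem susp (h0 : T_SU0) (h1 : T_SU1) : T_SUSP := by
  intro R _
  have key : ∀ k, Nonempty (SK R k) := by
    intro k
    induction k with
    | zero =>
      obtain ⟨κ, hn, hr⟩ := h0 R
      exact ⟨⟨fun q T _ => κ q T, fun q T T' _ _ g z z' h => hn q T T' g z z' h,
        fun q T _ j z hz => by
          have hj : j = (0 : Fin 1) := Subsingleton.elim (α := Fin 1) j 0
          subst hj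
          exact hr q T z hz, fun q T _ h => absurd h (Nat.not_lt_zero q)⟩⟩
    | succ k ih =>
      obtain ⟨S⟩ := ih
      obtain ⟨sg, s1, s2, s3, s4⟩ := h1 R k
      refine ⟨⟨fun q T _ => (sg (q + k) T).trans (S.κ q T), ?_, ?_, ?_⟩⟩
      · intro q T T' _ _ g z z' h
        simp only [LinearEquiv.trans_apply]
        exact S.natural q T T' g _ _ (s1 (q + k) T T' g z z' h)
      · intro q T _ j z hz
        cases q with
        | zero =>
          rw [s4 T] at hz
          have hz0 : z = 0 := hz
          rw [hz0, map_zero, neg_zero]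
        | succ n =>
          induction j using Fin.lastCases with
          | last => exact s3 n T z hz
          | cast j =>
            have hm : HH.map R (n + 1) ((Sph.refl (k + 1) j.castSucc).prodMap
                (ContinuousMap.id T)) z ∈ KK R (k + 1) (n + 1) T := refl_mem _ hz
            have e1 := s2 n T j ⟨z, hz⟩ ⟨_, hm⟩ rfl
            have e2 := S.refl n T j (sg n T ⟨z, hz⟩).1 (sg n T ⟨z, hz⟩).2
            rw [e2] at e1
            have e3 : sg n T ⟨_, hm⟩ = sg n T (-⟨z, hz⟩) := by
              apply Subtype.ext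
              rw [e1, map_neg]
              rfl
            have e4 := (sg n T).injective e3
            exact congrArg Subtype.val e4
      · intro q T _ hq
        cases q with
        | zero => exact s4 T
        | succ n =>
          have hb := S.low n T (by omega)
          rw [Submodule.eq_bot_iff]
          intro z hz
          have e1 : (sg n T ⟨z, hz⟩).1 ∈ (⊥ : Submodule R _) := hb ▸ (sg n T ⟨z, hz⟩).2
          have e2 : sg n T ⟨z, hz⟩ = 0 := Subtype.ext ((Submodule.mem_bot R).1 e1)
          have e3 := (LinearEquiv.map_eq_zero_iff (sg n T)).1 e2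
          exact congrArg Subtype.val e3
  let S : ∀ k, SK R k := fun k => (key k).some
  exact ⟨⟨fun k q T _ => (S k).κ q T, fun k q T T' _ _ g z z' h => (S k).natural q T T' g z z' h,
    fun k q T _ j z hz => (S k).refl q T j z hz, fun k q T _ h => (S k).low q T h⟩⟩

end Pool.Agent.H54.LB
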